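import Mathlib
import Pool.Agent.W2helper76.DP.LinkGal
import Pool.Agent.K4H74.ST.Fin

/-!
# Deligne's conjecture for the Artin twists of a motive: the exact form, with the Galois
equivariance

The twist of the motive `M` over `ℚ` by an Artin character `χ` of a Galois extension `L / K` of
number fields is `R_{K/ℚ}(M_K ⊗ χ)`. If `M` is critical of weight `≤ -3` and `F⁺ = F⁻` (for
instance if the weight is odd), then all twists are critical, with convergent Euler products at
`s = 0`. The other definitions are in `Pool.Agent.W2helper76.DP.Def`,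
`Pool.Agent.W2helper76.DP.DefGal` and `Pool.Agent.K4H74.SC.Core`.
-/

set_option autoImplicit false

namespace Pool.Agent.Results.MP_b696eb_nt.ExactTwists

open NumberField Pool.Agent.K4H74.SK Pool.Agent.W2helper76.DP

/-- The data of a motive `M` over `ℚ` (critical, with `F⁺ = F⁻`) which enter Deligne's conjecture
for its Artin twists: the weight, which is at most `-3`, half of the rank, a finite set which
contains the primes of bad reduction, the eigenvalues of the (geometric) Frobenius at the other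
primes, and Deligne's periods `c⁺(M)` and `c⁻(M)`. -/
structure Motive where
  /-- the weight -/
  weight : ℤ
  /-- half of the rank -/
  r : ℕ
  /-- the bad primes -/
  bad : Finset ℕ
  /-- the eigenvalues of the Frobenius at `p` -/
  eig : ℕ → Fin (2 * r) → ℂ
  /-- the period `c⁺(M)` -/
  cplus : ℂ
  /-- the period `c⁻(M)` -/
  cminus : ℂ
  weight_le : weight ≤ -3
  norm_eig : ∀ p : ℕ, p.Prime → p ∉ bad → ∀ i, ‖eig p i‖ = (p : ℝ) ^ ((weight : ℝ) / 2)
  cplus_ne : cplus ≠ 0
  cminus_ne : cminus ≠ 0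

/-- `v` is the quotient of the value at `s = 0` of the L-function of `M_K ⊗ χ` (without the Euler
factors over the bad primes) and `c⁺(M)^a c⁻(M)^b`, where `a` and `b` are the multiplicities of the
eigenvalues `1` and `-1` of the complex conjugation on the Betti realisation of the Artin motive
`R_{K/ℚ}[χ]`. Deligne's period of `R_{K/ℚ}(M_K ⊗ χ)` is the product of `c⁺(M)^a c⁻(M)^b` and the
`r`-th power of the period `δ(χ)` of the determinant of `R_{K/ℚ}[χ]` (for the Dirichlet characters
this is the Gauss sum). -/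
def IsQuotient (M : Motive) {E : Ext} (χ : G E → ℂ) (v : ℂ) : Prop :=
  ∃ (a b : ℕ) (l : ℂ), artinRank χ = a + b ∧ conjTrace χ = a - b ∧
    HasSum (twistTerm (frobTrace M.bad M.eig) χ 0) l ∧
    v = Complex.exp l / (M.cplus ^ a * M.cminus ^ b)

/-- Deligne's conjecture for `M_K ⊗ χ` (with the coefficients `ℚ(χ)`): for the quotient `v(χ)` of
the L-value and `c⁺(M)^a c⁻(M)^b`, and for every automorphism `σ` of `ℂ`,
`σ(v(χ)) det(σ | R_{K/ℚ}[σ χ])^r = v(σ χ)`. Here `det(σ | R_{K/ℚ}[χ])` is the determinant of `σ` in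
the representation of the Galois group of `ℚ` induced from the one with the character `χ`. (The
L-functions are those of Artin's convention, `χ` is evaluated at the arithmetic Frobenius elements;
so the Betti realisation of the Artin motive with this L-function is the dual representation, and
`σ(δ(χ)) det(σ | R_{K/ℚ}[σ χ]) = δ(σ χ)`, like for the Gauss sums of the Dirichlet characters. So
this property says that the quotients of the L-values and Deligne's periods are the conjugates of
one element of `ℚ(χ)`.) -/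
def Deligne (M : Motive) {E : Ext} (χ : G E → ℂ) : Prop :=
  ∀ σ : ℂ ≃+* ℂ, ∃ v v' d : ℂ, IsQuotient M χ v ∧ IsQuotient M (fun g => σ (χ g)) v' ∧
    IsArtinDet σ (fun g => σ (χ g)) d ∧ σ v * d ^ M.r = v'

/-- Deligne's conjecture for `M_K ⊗ χ` up to signs: `σ(v(χ)) det(σ | R_{K/ℚ}[σ χ])^r = ± v(σ χ)` -/
def DeligneUpToSign (M : Motive) {E : Ext} (χ : G E → ℂ) : Prop :=
  ∀ σ : ℂ ≃+* ℂ, ∃ v v' d : ℂ, IsQuotient M χ v ∧ IsQuotient M (fun g => σ (χ g)) v' ∧
    IsArtinDet σ (fun g => σ (χ g)) d ∧ (σ v * d ^ M.r = v' ∨ σ v * d ^ M.r = -v')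

/-- The linear character `ψ` takes the value `-1` at all complex conjugations. -/
def TotallyOdd {E : Ext} (ψ : G E →* ℂˣ) : Prop := ∀ t : G E, IsCC t → ψ t = -1

/-- the data of the motive -/
noncomputable def Motive.dat (M : Motive) : Dat where
  W := frobTrace M.bad M.eig
  w := (M.weight : ℝ) / 2
  B := (2 * M.r : ℕ)
  s := 0
  hB := Nat.cast_nonneg _
  hW := frobTrace_bound M.norm_eig
  hs := by
    have h : (M.weight : ℝ) ≤ -3 := by exact_mod_cast M.weight_le
    rw [Complex.zero_re]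
    linarith
  cp := Units.mk0 M.cplus M.cplus_ne
  cm := Units.mk0 M.cminus M.cminus_ne

lemma IsQuotient.unique {M : Motive} {E : Ext} {χ : G E → ℂ} {v v' : ℂ} (h : IsQuotient M χ v)
    (h' : IsQuotient M χ v') : v = v' := by
  obtain ⟨a, b, l, e1, e2, hl, rfl⟩ := h
  obtain ⟨a', b', l', e1', e2', hl', rfl⟩ := h'
  rw [e1] at e1'
  rw [e2] at e2'
  have e3 : a = a' := by
    have : (a : ℂ) = a' := by linear_combination (e1' + e2') / 2
    exact_mod_cast this
  have e4 : b = b' := by
    have : (b : ℂ) = b' := by linear_combination (e1' - e2') / 2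
    exact_mod_cast this
  rw [e3, e4, hl.unique hl']

lemma exists_quotient (M : Motive) {E : Ext} {χ : G E → ℂ} (hχ : IsChr χ) :
    ∃ v, IsQuotient M χ v := by
  obtain ⟨a, b, h1, h2⟩ := exists_ab E.K E.L (isChr_iff.mp hχ)
  exact ⟨_, a, b, _, h1, (conjTrace_eq χ).trans h2, twist_hasSum M.dat χ, rfl⟩

/-- a power of the defect -/
lemma pow_iff (M : Motive) (σ : ℂ ≃+* ℂ) {E : Ext} {χ : G E → ℂ} (hχ : IsChr χ) (n : ℕ) :
    (eInv M.dat M.dat M.r σ).val E.K E.L χ ^ n = 1 ↔ ∃ v v' d : ℂ, IsQuotient M χ v ∧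
      IsQuotient M (fun g => σ (χ g)) v' ∧ IsArtinDet σ (fun g => σ (χ g)) d ∧
        (σ v * d ^ M.r) ^ n = v' ^ n := by
  rw [exact_iff hχ]
  have hσ1 : artinRank (fun g => σ (χ g)) = σ (artinRank χ) := by
    rw [artinRank, artinRank, map_mul, map_natCast]
  have hσ2 : conjTrace (fun g => σ (χ g)) = σ (conjTrace χ) := conjTrace_sigma σ χ
  constructor
  · rintro ⟨a, b, l, l', d, e1, e2, hl, hl', hd, h⟩
    refine ⟨_, _, d, ⟨a, b, l, e1, e2, hl, rfl⟩, ⟨a, b, l', ?_, ?_, hl', rfl⟩, hd, h⟩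
    · rw [hσ1, e1, map_add, map_natCast, map_natCast]
    · rw [hσ2, e2, map_sub, map_natCast, map_natCast]
  · rintro ⟨v, v', d, ⟨a, b, l, e1, e2, hl, rfl⟩, ⟨a', b', l', e1', e2', hl', rfl⟩, hd, h⟩
    rw [hσ1, e1, map_add, map_natCast, map_natCast] at e1'
    rw [hσ2, e2, map_sub, map_natCast, map_natCast] at e2'
    have e3 : a = a' := by
      have : (a : ℂ) = a' := by linear_combination (e1' + e2') / 2
      exact_mod_cast this
    have e4 : b = b' := by
      have : (b : ℂ) = b' := by linear_combination (e1' - e2') / 2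
      exact_mod_cast this
    subst e3 e4
    exact ⟨a, b, l, l', d, e1, e2, hl, hl', hd, h⟩

lemma deligne_iff (M : Motive) {E : Ext} {χ : G E → ℂ} (hχ : IsChr χ) :
    Deligne M χ ↔ ∀ σ : ℂ ≃+* ℂ, (eInv M.dat M.dat M.r σ).val E.K E.L χ = 1 := by
  refine forall_congr' fun σ => ?_
  have h := pow_iff M σ hχ 1
  simp only [pow_one] at h
  exact h.symm

lemma sign_iff (M : Motive) {E : Ext} {χ : G E → ℂ} (hχ : IsChr χ) :
    DeligneUpToSign M χ ↔ ∀ σ : ℂ ≃+* ℂ, (eInv M.dat M.dat M.r σ).val E.K E.L χ ^ 2 = 1 := by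
  refine forall_congr' fun σ => ?_
  rw [pow_iff M σ hχ 2]
  refine exists_congr fun v => exists_congr fun v' => exists_congr fun d =>
    and_congr_right fun _ => and_congr_right fun _ => and_congr_right fun _ => ?_
  rw [sq_eq_sq_iff_eq_or_eq_neg]

/-- Let `M` be a motive as above.

(1) For every Artin character `χ` of a number field there are exactly one quotient `v(χ)` and, for
every automorphism `σ` of `ℂ`, exactly one determinant of `σ` on `R_{K/ℚ}[χ]`.

(2) Suppose that Deligne's conjecture holds for `M_K` for all number fields `K` and for `M_K ⊗ ψ`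
for all totally complex `K` and all faithful linear characters `ψ` of the (cyclic) extensions
`L / K`. Then it holds up to signs for all `M_K ⊗ χ`, and it holds for all `M_K ⊗ χ` with
characters `χ` of extensions of odd degree.

(3) Deligne's conjecture holds for `M_K ⊗ χ` for all number fields `K` and all Artin characters `χ`
of `K` if and only if it holds for `M_K` for all `K`, and for `M_K ⊗ ψ` for the linear characters
`ψ` of the following three types: the faithful ones of the extensions of the totally complex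
fields, the totally odd ones of the extensions of the totally real fields, and the faithful ones of
the cyclic extensions of degree `4, 8, 16, ...`, without ramification at infinity, of the fields
which are neither totally real nor totally complex. -/
theorem result (M : Motive) :
    -- (1)
    ((∀ (E : Ext) (χ : G E → ℂ), IsChr χ → (∃! v : ℂ, IsQuotient M χ v) ∧
      ∀ σ : ℂ ≃+* ℂ, ∃! d : ℂ, IsArtinDet σ χ d)) ∧
    -- (2)
    ((∀ (K : Type) [Field K] [NumberField K], Deligne M (E := ⟨K, K⟩) (fun _ => 1)) →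
      (∀ (E : Ext) (ψ : G E →* ℂˣ), IsTotallyComplex E.K → Function.Injective ψ →
        Deligne M (lin ψ)) →
      ∀ (E : Ext) (χ : G E → ℂ), IsChr χ → DeligneUpToSign M χ ∧
        (Odd (Module.finrank E.K E.L) → Deligne M χ)) ∧
    -- (3)
    ((∀ (E : Ext) (χ : G E → ℂ), IsChr χ → Deligne M χ) ↔
      ((∀ (K : Type) [Field K] [NumberField K], Deligne M (E := ⟨K, K⟩) (fun _ => 1)) ∧
        (∀ (E : Ext) (ψ : G E →* ℂˣ), IsTotallyComplex E.K → Function.Injective ψ →
          Deligne M (lin ψ)) ∧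
        (∀ (E : Ext) (ψ : G E →* ℂˣ), IsTotallyReal E.K → TotallyOdd ψ → Deligne M (lin ψ)) ∧
        (∀ (E : Ext) (ψ : G E →* ℂˣ), ¬ IsTotallyReal E.K → ¬ IsTotallyComplex E.K →
          (∃ l : ℕ, Nat.card (G E) = 2 ^ (l + 2)) → (∀ t : G E, IsCC t → t = 1) →
          Function.Injective ψ → Deligne M (lin ψ)))) := by
  have hone : (∀ (K : Type) [Field K] [NumberField K], Deligne M (E := ⟨K, K⟩) (fun _ => 1)) →
      ∀ σ : ℂ ≃+* ℂ, Pool.Agent.K4H74.ST.TrivOne (eInv M.dat M.dat M.r σ) := by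
    intro h σ K _ _
    exact (deligne_iff M (E := ⟨K, K⟩) (Pool.Agent.W2helper76.DP.isChr_one _)).mp (h K) σ
  have hcx : (∀ (E : Ext) (ψ : G E →* ℂˣ), IsTotallyComplex E.K → Function.Injective ψ →
        Deligne M (lin ψ)) →
      ∀ σ : ℂ ≃+* ℂ, Pool.Agent.K4H74.ST.TrivComplex (eInv M.dat M.dat M.r σ) := by
    intro h σ K L _ _ _ _ _ _ hK ψ hψ
    exact (deligne_iff M (E := ⟨K, L⟩) (isChr_lin (E := ⟨K, L⟩) ψ)).mp (h ⟨K, L⟩ ψ hK hψ) σ
  refine ⟨fun E χ hχ => ⟨?_, fun σ => ?_⟩, ?_, ?_⟩
  · obtain ⟨v, hv⟩ := exists_quotient M hχ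
    exact ⟨v, hv, fun v' hv' => hv'.unique hv⟩
  · obtain ⟨d, hd⟩ := exists_artinDet σ hχ
    exact ⟨d, hd, fun d' hd' => hd'.unique hd⟩
  · intro h1 h2 E χ hχ
    refine ⟨(sign_iff M hχ).mpr fun σ => ?_, fun hodd => (deligne_iff M hχ).mpr fun σ => ?_⟩
    · exact Pool.Agent.K4H74.ST.main_sq _ (hone h1 σ) (hcx h2 σ) E.K E.L χ (isChr_iff.mp hχ)
    · exact Pool.Agent.K4H74.ST.main_odd _ (hone h1 σ) (hcx h2 σ) E.K E.L hodd χ (isChr_iff.mp hχ)
  · constructor
    · intro h
      exact ⟨fun K _ _ => h _ _ (Pool.Agent.W2helper76.DP.isChr_one _),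
        fun E ψ _ _ => h E _ (isChr_lin ψ), fun E ψ _ _ => h E _ (isChr_lin ψ),
        fun E ψ _ _ _ _ _ => h E _ (isChr_lin ψ)⟩
    · rintro ⟨h1, h2, h3, h4⟩ E χ hχ
      refine (deligne_iff M hχ).mpr fun σ => ?_
      refine Pool.Agent.K4H74.ST.main_all _ (hone h1 σ) (hcx h2 σ) ?_ ?_ E.K E.L χ
        (isChr_iff.mp hχ)
      · intro K L _ _ _ _ _ _ hK ψ hψ
        refine (deligne_iff M (E := ⟨K, L⟩) (isChr_lin (E := ⟨K, L⟩) ψ)).mp
          (h3 ⟨K, L⟩ ψ hK ?_) σ
        rintro t ⟨φ, hφ⟩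
        exact hψ φ t (RingHom.ext fun x => (hφ x).symm)
      · intro K L _ _ _ _ _ _ hK hK' hl hcc ψ hψ
        refine (deligne_iff M (E := ⟨K, L⟩) (isChr_lin (E := ⟨K, L⟩) ψ)).mp
          (h4 ⟨K, L⟩ ψ hK hK' hl ?_ hψ) σ
        rintro t ⟨φ, hφ⟩
        exact hcc φ t (RingHom.ext fun x => (hφ x).symm)

end Pool.Agent.Results.MP_b696eb_nt.ExactTwists
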