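import Mathlib
import Pool.Agent.W2helper23.SG.Final
import Pool.Agent.W2helper23.SG.Two
import Pool.Agent.W2helper76.DP.Real

/-!
# Deligne's conjecture up to sign for all the Artin twists of a motive

The other definitions are in `Pool.Agent.W2helper23.DEL.Def` (the numerical data `Mot` of the
motive `M`, `IsRes`, `IsRatio`, `IsDefect`, `induce`, `Ratio`, `Defect`) and
`Pool.Agent.K4H74.SC.Core` (`Ext`, `Pair`, `IsChr`, `lin`, `logTerm`).
-/

set_option autoImplicit false

namespace Pool.Agent.Results.MP_b696eb_nt.SignTwists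

open NumberField Pool.Agent.K4H74 Pool.Agent.K4H74.SK Pool.Agent.K4H74.ST Pool.Agent.K4H34.AL
  Pool.Agent.W2helper23.DEL Pool.Agent.W2helper23.SG

/-- The faithful linear characters of the (cyclic) extensions `L / K`, `K` totally complex. -/
inductive Cx : Pair → Prop
  | complex (E : Ext) (ψ : G E →* ℂˣ) : IsTotallyComplex E.K → Function.Injective ψ →
      Cx ⟨E, lin ψ⟩

/-- The trivial character of `ℚ`: the motive `M` itself. -/
noncomputable def one : Pair := ⟨⟨ℚ, ℚ⟩, fun _ => 1⟩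

/-- Deligne's conjecture for the motive `M(χ)` over `ℚ` which one gets from `M_K ⊗ χ` by
restriction of scalars, for the pair `x` of `L / K` and `χ`: all the defects are `1`. -/
def Deligne (M : Mot ℚ) (x : Pair) : Prop :=
  ∀ (σ : ℂ ≃+* ℂ) (τ : ℚ →+* ℂ), Defect M σ τ x 1

/-- `t` is the trace of the complex conjugations in the character over `ℚ` which is induced from
the character `x.2` of `Gal(L/K)`. -/
def IsTrace (x : Pair) (t : ℤ) : Prop :=
  ∀ (N : Type) [Field N] [NumberField N] [IsGalois ℚ N], (x.1.L →+* N) →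
    ∀ (φ : N →+* ℂ) (c : N ≃ₐ[ℚ] N), IsRes (starRingEnd ℂ) φ c →
      induce N (K := x.1.K) (L := x.1.L) x.2 c = t

lemma Cx.isChr {x : Pair} (h : Cx x) : IsChr x.2 := by
  cases h with
  | complex E ψ _ _ => exact isChr_lin ψ

/-- Let `M` be the numerical data of a pure motive `M` over `ℚ` with rational coefficients, without
Hodge numbers `h^{p,p}`, critical at `s = 0`, with `s = 0` in the region of absolute convergence.
For a character `χ` of a Galois extension `L / K` of number fields let `M(χ)` be the motive over `ℚ`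
which one gets from `M_K ⊗ χ` by restriction of scalars, and `t` the trace of complex conjugation in
the character over `ℚ` induced from `χ`.

(0) There is exactly one ratio `L(M(χ), 0) / (c⁺(M)^(m⁺) c⁻(M)^(m⁻))` and, for every automorphism of
`ℂ`, exactly one defect.

(1) For each `χ` there are faithful linear characters `ψ i` of extensions of totally complex fields
and integers `k i` with `L(s, χ)^2 = ζ(s)^(2t) ∏ L(s, ψ i)^(k i)` (in terms of logarithms) such that
for all `M` the ratio and the defects of `M(χ)` satisfy the same relation.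

(2) If Deligne's conjecture holds for `M` and for the `M(ψ)`, `ψ` a faithful linear character over a
totally complex field, then it holds up to signs for all `M(χ)`: all the defects are `1` or `-1`.

(3) In this case the square of the ratio is rational for the rational-valued `χ`; in particular for
`M_K`, for all number fields `K`. (4) If `K` is totally real and `[L : K]` is odd then Deligne's
conjecture holds for `M(χ)`, without signs. -/
theorem result :
    -- (0)
    (∀ (M : Mot ℚ) (x : Pair), IsChr x.2 → (∀ τ : ℚ →+* ℂ, ∃! r : ℂ, Ratio M τ x r) ∧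
      ∀ (σ : ℂ ≃+* ℂ) (τ : ℚ →+* ℂ), ∃! u : ℂˣ, Defect M σ τ x u) ∧
    -- (1)
    (∀ x : Pair, IsChr x.2 → ∃ (t : ℤ) (r : ℕ) (y : Fin r → Pair) (k : Fin r → ℤ),
      IsTrace x t ∧ (∀ i, Cx (y i)) ∧
      (∀ s : ℂ, 1 < s.re → ∀ (l l₀ : ℂ) (m : Fin r → ℂ), HasSum (logTerm x.2 s) l →
        HasSum (logTerm one.2 s) l₀ → (∀ i, HasSum (logTerm (y i).2 s) (m i)) →
        2 * l = 2 * t * l₀ + ∑ i, k i * m i) ∧
      ∀ M : Mot ℚ,
        (∀ (τ : ℚ →+* ℂ) (a a₀ : ℂ) (b : Fin r → ℂ), Ratio M τ x a → Ratio M τ one a₀ →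
          (∀ i, Ratio M τ (y i) (b i)) → a ^ 2 = a₀ ^ (2 * t) * ∏ i, b i ^ k i) ∧
        ∀ (σ : ℂ ≃+* ℂ) (τ : ℚ →+* ℂ) (u u₀ : ℂˣ) (v : Fin r → ℂˣ), Defect M σ τ x u →
          Defect M σ τ one u₀ → (∀ i, Defect M σ τ (y i) (v i)) →
          u ^ 2 = u₀ ^ (2 * t) * ∏ i, v i ^ k i) ∧
    ∀ M : Mot ℚ, Deligne M one → (∀ y : Pair, Cx y → Deligne M y) →
      ∀ x : Pair, IsChr x.2 →
        -- (2)
        (∀ (σ : ℂ ≃+* ℂ) (τ : ℚ →+* ℂ) (u : ℂˣ), Defect M σ τ x u → u = 1 ∨ u = -1) ∧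
        -- (3)
        ((∀ g, ∃ q : ℚ, x.2 g = q) → ∀ (τ : ℚ →+* ℂ) (r : ℂ), Ratio M τ x r →
          ∃ q : ℚ, r ^ 2 = q) ∧
        -- (4)
        (IsTotallyReal x.1.K → Odd (Module.finrank x.1.K x.1.L) → Deligne M x) := by
  have hone : IsChr one.2 := Pool.Agent.W2helper23.DEL.isChr_one ⟨ℚ, ℚ⟩
  refine ⟨fun M x hx => ⟨fun τ => ⟨_, ratio_val τ hx, fun r hr => ratio_eq hx hr⟩,
    fun σ τ => ⟨_, defect_val σ τ hx, fun u hu => defect_eq hx hu⟩⟩, fun x hx => ?_,
    fun M hM hC x hx => ⟨fun σ τ u hu => ?_, fun hq τ r hr => ?_, fun hreal hodd σ τ => ?_⟩⟩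
  · obtain ⟨t, r, y, k, ht, hy, h⟩ := sq_form_q sign (univInv ℚ) Cx
      (fun E hE ψ hψ => Cx.complex E ψ hE hψ) hx
    obtain ⟨h1, h2⟩ := univ_rel h
    refine ⟨t, r, y, k, fun N _ _ _ j φ c hc => ht N j c ⟨φ, by ext z; exact (hc z).symm⟩, hy,
      h1, fun M => ⟨fun τ a a₀ b ha ha₀ hb => ?_, fun σ τ u u₀ v hu hu₀ hv => ?_⟩⟩
    · have h3 := congrArg (fun z : ℂˣ => (z : ℂ)) ((h2 M).1 τ)
      simp only [Units.val_pow_eq_pow_val, Units.val_mul, Units.val_zpow_eq_zpow_val,
        Units.coe_prod] at h3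
      rw [ratio_eq hx ha, ratio_eq hone ha₀, h3]
      congr 1
      exact Finset.prod_congr rfl fun i _ => by rw [ratio_eq (hy i).isChr (hb i)]
    · rw [defect_eq hx hu, defect_eq hone hu₀, (h2 M).2 σ τ]
      congr 1
      exact Finset.prod_congr rfl fun i _ => by rw [defect_eq (hy i).isChr (hv i)]
  · exact defect_sign sign (hM σ τ) (fun E ψ hE hψ => hC _ (Cx.complex E ψ hE hψ) σ τ) hx hu
  · exact ratio_sq sign hM (fun σ τ E ψ hE hψ => hC _ (Cx.complex E ψ hE hψ) σ τ) hx hq hr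
  · have i2 : TrivComplex (defInv M σ τ) := fun K L _ _ _ _ _ _ hK ψ hψ =>
      (defect_eq (x := ⟨⟨K, L⟩, lin (E := ⟨K, L⟩) ψ⟩) (isChr_lin (E := ⟨K, L⟩) ψ)
        (hC _ (Cx.complex ⟨K, L⟩ ψ hK hψ) σ τ)).symm
    have i3 : ∀ (K : Type) [Field K] [NumberField K], IsTotallyComplex K →
        (defInv M σ τ).val K K (fun _ => 1) = 1 := by
      intro K _ _ hK
      have h1 := i2 K K hK 1 (fun a b _ => Subsingleton.elim a b)
      simpa using h1
    have i4 : (defInv M σ τ).val ℚ ℚ (fun _ => 1) = 1 := (defect_eq hone (hM σ τ)).symm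
    obtain ⟨n, hn, h⟩ := val_odd_deg i2 x.1.K x.1.L hodd (isChr_iff.mp hx)
    rw [Pool.Agent.W2helper76.DP.real_val i3 x.1.K hreal, i4, one_pow, one_pow] at h
    have h1 := defect_val (M := M) σ τ hx
    have h2 : pval (defInv M σ τ) x = 1 := h
    rw [h2] at h1
    exact h1

end Pool.Agent.Results.MP_b696eb_nt.SignTwists
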