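import Mathlib
import Pool.Agent.W2helper76.DP.Base

/-!
# Deligne's conjecture over totally real fields follows from the totally complex fields

For a motive `M` over `ℚ` and a number field `K` the base change `M_K` gives the motive
`R_{K/ℚ} M_K` over `ℚ`, with rational coefficients. If `M` is critical of weight `≤ -3` and
`F⁺ = F⁻` (for instance if the weight is odd), then all these motives are critical, with convergent
Euler products at `s = 0`. The L-function is defined in `Pool.Agent.W2helper76.DP.BaseDef`, and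
`frobTrace` in `Pool.Agent.W2helper76.DP.Def`.
-/

set_option autoImplicit false

namespace Pool.Agent.Results.MP_b696eb_nt.TotallyRealFields

open NumberField Pool.Agent.K4H74.SK Pool.Agent.W2helper76.DP Pool.Agent.K4H34.AL

/-- The data of a motive `M` over `ℚ` (with `F⁺ = F⁻`) which enter Deligne's conjecture for its
base changes: the weight, half of the rank, a finite set which contains the primes of bad
reduction, the eigenvalues of the (geometric) Frobenius at the other primes, and Deligne's periods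
`c⁺(M)` and `c⁻(M)`. -/
structure Motive where
  /-- the weight -/
  weight : ℤ
  /-- half of the rank -/
  r : ℕ
  /-- the bad primes -/
  bad : Finset ℕ
  /-- the eigenvalues of the Frobenius at `p` -/
  eig : ℕ → Fin (2 * r) → ℂ
  /-- the period `c⁺(M)` -/
  cplus : ℂ
  /-- the period `c⁻(M)` -/
  cminus : ℂ
  norm_eig : ∀ p : ℕ, p.Prime → p ∉ bad → ∀ i, ‖eig p i‖ = (p : ℝ) ^ ((weight : ℝ) / 2)
  cplus_ne : cplus ≠ 0
  cminus_ne : cminus ≠ 0

/-- `l` is the logarithm of the L-function of `M_K` (without the Euler factors over the bad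
primes) at `s`: the sum of `tr(Frob_P^n | M) / (n N(P)^(n s))` over the primes `P` of `K` and the
`n ≥ 1`. -/
def IsLog (M : Motive) (K : Type) [Field K] [NumberField K] (s l : ℂ) : Prop :=
  HasSum (baseTerm (frobTrace M.bad M.eig) K s) l

/-- `c` is Deligne's period `c⁺(R_{K/ℚ} M_K) = c⁺(M)^(r₁ + r₂) c⁻(M)^(r₂) (√d_K)^r`, where `K` has
`r₁` real and `r₂` complex places and the discriminant `d_K`, and `2 r` is the rank of `M`. -/
def IsPeriod (M : Motive) (K : Type) [Field K] [NumberField K] (c : ℂ) : Prop :=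
  ∃ δ : ℂ, δ ^ 2 = (discr K : ℂ) ∧
    c = M.cplus ^ (InfinitePlace.nrRealPlaces K + InfinitePlace.nrComplexPlaces K)
      * M.cminus ^ InfinitePlace.nrComplexPlaces K * δ ^ M.r

/-- Deligne's conjecture for the motive `R_{K/ℚ} M_K` with rational coefficients: the value of the
L-function at `0` is a rational multiple of the period. -/
def Deligne (M : Motive) (K : Type) [Field K] [NumberField K] : Prop :=
  ∃ (l c : ℂ) (q : ℚ), IsLog M K 0 l ∧ IsPeriod M K c ∧ Complex.exp l = q * c

/-- A number field. -/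
structure NF where
  /-- the field -/
  K : Type
  [fK : Field K]
  [nK : NumberField K]

attribute [instance] NF.fK NF.nK

/-- the data of the motive -/
noncomputable def Motive.dat (M : Motive) (s : ℂ) (hs : 1 + (M.weight : ℝ) / 2 < s.re) : Dat where
  W := frobTrace M.bad M.eig
  w := (M.weight : ℝ) / 2
  B := (2 * M.r : ℕ)
  s := s
  hB := Nat.cast_nonneg _
  hW := frobTrace_bound M.norm_eig
  hs := by linarith
  cp := Units.mk0 M.cplus M.cplus_ne
  cm := Units.mk0 M.cminus M.cminus_ne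

lemma Motive.zero_re (M : Motive) (hM : M.weight ≤ -3) :
    1 + (M.weight : ℝ) / 2 < (0 : ℂ).re := by
  have h : (M.weight : ℝ) ≤ -3 := by exact_mod_cast hM
  rw [Complex.zero_re]
  linarith

/-- the data at `0` -/
noncomputable abbrev Motive.dat0 (M : Motive) (hM : M.weight ≤ -3) : Dat := M.dat 0 (M.zero_re hM)

lemma isLog_iff {M : Motive} {K : Type} [Field K] [NumberField K] {s l : ℂ} :
    IsLog M K s l ↔ HasSum (twistTerm (frobTrace M.bad M.eig) (E := selfExt K) (fun _ => 1) s) l := by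
  rw [IsLog, baseTerm_eq]

lemma exists_log {M : Motive} (K : Type) [Field K] [NumberField K] {s : ℂ}
    (hs : 1 + (M.weight : ℝ) / 2 < s.re) : ∃ l, IsLog M K s l :=
  ⟨_, isLog_iff.mpr (twist_hasSum (M.dat s hs) (E := selfExt K) (fun _ => 1))⟩

/-- the quotient without the discriminant -/
noncomputable def quo (M : Motive) (K : Type) [Field K] [NumberField K] (l : ℂ) : ℂ :=
  Complex.exp l / (M.cplus ^ (InfinitePlace.nrRealPlaces K + InfinitePlace.nrComplexPlaces K)
      * M.cminus ^ InfinitePlace.nrComplexPlaces K)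

lemma per_ne (M : Motive) (K : Type) [Field K] [NumberField K] :
    M.cplus ^ (InfinitePlace.nrRealPlaces K + InfinitePlace.nrComplexPlaces K)
      * M.cminus ^ InfinitePlace.nrComplexPlaces K ≠ 0 :=
  mul_ne_zero (pow_ne_zero _ M.cplus_ne) (pow_ne_zero _ M.cminus_ne)

/-- a power of the defect -/
lemma pow_iff {M : Motive} (hM : M.weight ≤ -3) {K : Type} [Field K] [NumberField K] {l : ℂ}
    (hl : IsLog M K 0 l) (σ : ℂ ≃+* ℂ) (n : ℕ) :
    (eInv (M.dat0 hM) (M.dat0 hM) M.r σ).val K K (fun _ => 1) ^ n = 1 ↔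
      (σ (quo M K l) * ((sg K σ : ℤ) : ℂ) ^ M.r) ^ n = quo M K l ^ n := by
  have h0 := exact_iff (D := M.dat0 hM) (D' := M.dat0 hM) (r := M.r) (σ := σ)
    (Pool.Agent.W2helper76.DP.isChr_one (selfExt K)) n
  have hone : (fun g : G (selfExt K) => σ ((fun _ => (1 : ℂ)) g)) = fun _ => 1 := by
    funext g
    exact map_one σ
  rw [hone] at h0
  refine h0.trans ?_
  have hl' := isLog_iff.mp hl
  constructor
  · rintro ⟨a, b, l1, l2, d, e1, e2, hl1, hl2, hd, h⟩
    rw [artinRank_self] at e1
    rw [conjTrace_self] at e2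
    have e3 : InfinitePlace.nrRealPlaces K + InfinitePlace.nrComplexPlaces K = a := by
      have : ((InfinitePlace.nrRealPlaces K + InfinitePlace.nrComplexPlaces K : ℕ) : ℂ) = a := by
        linear_combination (e1 + e2) / 2
      exact_mod_cast this
    have e4 : InfinitePlace.nrComplexPlaces K = b := by
      have : ((InfinitePlace.nrComplexPlaces K : ℕ) : ℂ) = b := by
        linear_combination (e1 - e2) / 2
      exact_mod_cast this
    subst e3 e4
    rw [hl1.unique hl', hl2.unique hl', hd.unique (isArtinDet_self K σ)] at h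
    exact h
  · intro h
    exact ⟨_, _, l, l, _, artinRank_self K, conjTrace_self K, hl', hl', isArtinDet_self K σ, h⟩

lemma deligne_iff {M : Motive} (hM : M.weight ≤ -3) (K : Type) [Field K] [NumberField K] :
    Deligne M K ↔ ∀ σ : ℂ ≃+* ℂ,
      (eInv (M.dat0 hM) (M.dat0 hM) M.r σ).val K K (fun _ => 1) = 1 := by
  obtain ⟨l, hl⟩ := exists_log (M := M) K (M.zero_re hM)
  obtain ⟨δ, hδ⟩ : ∃ δ : ℂ, δ ^ 2 = (discr K : ℂ) :=
    IsAlgClosed.exists_pow_nat_eq _ (by norm_num)
  have h1 : (∀ σ : ℂ ≃+* ℂ, (eInv (M.dat0 hM) (M.dat0 hM) M.r σ).val K K (fun _ => 1) = 1) ↔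
      ∀ σ : ℂ ≃+* ℂ, σ (quo M K l) * ((sg K σ : ℤ) : ℂ) ^ M.r = quo M K l := by
    refine forall_congr' fun σ => ?_
    have := pow_iff hM hl σ 1
    simpa only [pow_one] using this
  rw [h1]
  constructor
  · rintro ⟨l', c, q, hl', ⟨δ', hδ', rfl⟩, h⟩
    rw [HasSum.unique hl' hl] at h
    refine (rational_iff K hδ' M.r).mpr ⟨q, ?_⟩
    rw [quo, h]
    field_simp [per_ne M K]
    have h2 := M.cplus_ne
    have h3 := M.cminus_ne
    field_simp
  · intro h
    obtain ⟨q, hq⟩ := (rational_iff K hδ M.r).mp h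
    refine ⟨l, _, q, hl, ⟨δ, hδ, rfl⟩, ?_⟩
    rw [quo, div_eq_iff (per_ne M K)] at hq
    rw [hq]
    ring

/-- the trivial characters of the totally complex fields -/
def CxTriv (x : Pair) : Prop := ∃ F : NF, IsTotallyComplex F.K ∧ x = oneP F.K

/-- the relation for a totally real field -/
theorem rel_real {M : Type} [CommGroup M] (A : Pool.Agent.K4H74.ST.ArtinInvariant M) (K : Type)
    [Field K] [NumberField K] (hK : IsTotallyReal K) :
    ∃ (m : ℕ) (F : Fin m → NF) (k : Fin m → ℤ), (∀ i, IsTotallyComplex (F i).K) ∧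
      pval A (oneP K) ^ 1 = ∏ i : Fin (m + 1),
        pval A ((Fin.cons (α := fun _ => Pair) (oneP ℚ) (fun i => oneP (F i).K) :
          Fin (m + 1) → Pair) i) ^
          ((Fin.cons (α := fun _ => ℤ) (Module.finrank ℚ K : ℤ) k : Fin (m + 1) → ℤ) i) := by
  let P : Subgroup M := Subgroup.closure {y : M | ∃ x : Pair, CxTriv x ∧ y = pval A x}
  let B : Pool.Agent.K4H74.ST.ArtinInvariant (M ⧸ P) :=
    mapInv (QuotientGroup.mk' P) A
  have hC : ∀ (F : Type) [Field F] [NumberField F], IsTotallyComplex F →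
      B.val F F (fun _ => 1) = 1 := by
    intro F _ _ hF
    refine (QuotientGroup.eq_one_iff (N := P) _).mpr ?_
    exact Subgroup.subset_closure ⟨oneP F, ⟨⟨F⟩, hF, rfl⟩, rfl⟩
  have h1 := real_val (A := B) hC K hK
  have h2 : QuotientGroup.mk' P (pval A (oneP K) *
      (pval A (oneP ℚ) ^ (Module.finrank ℚ K : ℤ))⁻¹) = 1 := by
    rw [map_mul, map_inv, map_zpow, mul_inv_eq_one, zpow_natCast]
    exact h1
  have h3 := (QuotientGroup.eq_one_iff (N := P) _).mp h2
  obtain ⟨m, x, k, hx, h4⟩ := closure_form A CxTriv h3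
  choose F hF hxF using hx
  refine ⟨m, F, k, hF, ?_⟩
  rw [Fin.prod_univ_succ]
  simp only [Fin.cons_zero, Fin.cons_succ]
  rw [Finset.prod_congr rfl (fun i _ => by rw [← hxF i]), ← h4, pow_one,
    mul_comm (pval A (oneP K)), mul_inv_cancel_left]

/-- (1) For every motive `M` of weight `w` and every number field `K` the series for the logarithm
of the L-function of `M_K` converges for `Re s > w / 2 + 1`.

(2) For every totally real number field `K` there are totally complex number fields `F_i` and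
integers `k_i` such that for all motives `M`, with `w` the weight of `M` and `Re s > w / 2 + 1`,
`L(M_K, s) = L(M, s)^[K : ℚ] ∏ L(M_{F_i}, s)^(k_i)` (for the logarithms).

(3) Let `M` be of weight `≤ -3`. If Deligne's conjecture `L(0) ∈ ℚ c⁺` holds for `M` and for
`R_{K/ℚ} M_K` for all totally complex number fields `K`, then it holds for `R_{K/ℚ} M_K` for all
totally real number fields `K`, and for every number field `K` some power of `L(M_K, 0)` is a
rational multiple of the same power of the period. -/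
theorem result :
    -- (1)
    (∀ (M : Motive) (K : Type) [Field K] [NumberField K] (s : ℂ),
      1 + (M.weight : ℝ) / 2 < s.re → ∃ l, IsLog M K s l) ∧
    -- (2)
    (∀ (K : Type) [Field K] [NumberField K], IsTotallyReal K →
      ∃ (m : ℕ) (F : Fin m → NF) (k : Fin m → ℤ), (∀ i, IsTotallyComplex (F i).K) ∧
        ∀ (M : Motive) (s : ℂ), 1 + (M.weight : ℝ) / 2 < s.re →
          ∀ (l l₁ : ℂ) (l' : Fin m → ℂ), IsLog M K s l → IsLog M ℚ s l₁ →
            (∀ i, IsLog M (F i).K s (l' i)) →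
            l = Module.finrank ℚ K * l₁ + ∑ i, k i * l' i) ∧
    -- (3)
    (∀ M : Motive, M.weight ≤ -3 → Deligne M ℚ →
      (∀ (K : Type) [Field K] [NumberField K], IsTotallyComplex K → Deligne M K) →
      (∀ (K : Type) [Field K] [NumberField K], IsTotallyReal K → Deligne M K) ∧
      ∀ (K : Type) [Field K] [NumberField K], ∃ (n : ℕ) (l c : ℂ) (q : ℚ), 0 < n ∧
        IsLog M K 0 l ∧ IsPeriod M K c ∧ Complex.exp l ^ n = q * c ^ n) := by
  refine ⟨fun M K _ _ s hs => exists_log K hs, ?_, ?_⟩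
  · intro K _ _ hK
    obtain ⟨m, F, k, hF, h⟩ := rel_real univInv K hK
    refine ⟨m, F, k, hF, fun M s hs l l₁ l' hl hl₁ hl' => ?_⟩
    have h3 := rel_log (M.dat s hs) h (l := l) (l' := (Fin.cons (α := fun _ => ℂ) l₁ l' :
      Fin (m + 1) → ℂ)) (isLog_iff.mp hl) (fun i => by
        refine Fin.cases ?_ (fun j => ?_) i
        · exact isLog_iff.mp hl₁
        · exact isLog_iff.mp (hl' j))
    rw [Fin.sum_univ_succ] at h3
    simp only [Fin.cons_zero, Fin.cons_succ, Nat.cast_one, one_mul] at h3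
    rw [h3]
    push_cast
    rfl
  · intro M hM hQ hC
    have hC' : ∀ σ : ℂ ≃+* ℂ, ∀ (K : Type) [Field K] [NumberField K], IsTotallyComplex K →
        (eInv (M.dat0 hM) (M.dat0 hM) M.r σ).val K K (fun _ => 1) = 1 :=
      fun σ K _ _ hK => (deligne_iff hM K).mp (hC K hK) σ
    have hQ' := (deligne_iff hM ℚ).mp hQ
    refine ⟨fun K _ _ hK => ?_, fun K _ _ => ?_⟩
    · rw [deligne_iff hM K]
      intro σ
      rw [real_val (A := eInv (M.dat0 hM) (M.dat0 hM) M.r σ) (hC' σ) K hK, hQ' σ, one_pow]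
    · obtain ⟨l, hl⟩ := exists_log (M := M) K (M.zero_re hM)
      obtain ⟨δ, hδ⟩ : ∃ δ : ℂ, δ ^ 2 = (discr K : ℂ) :=
        IsAlgClosed.exists_pow_nat_eq _ (by norm_num)
      let C : Pool.Agent.K4H74.ST.ArtinInvariant ((ℂ ≃+* ℂ) → ℂˣ) :=
        piInv fun σ : ℂ ≃+* ℂ => eInv (M.dat0 hM) (M.dat0 hM) M.r σ
      let B : Pool.Agent.K4H74.ST.ArtinInvariant
          (((ℂ ≃+* ℂ) → ℂˣ) ⧸ sat (⊥ : Subgroup ((ℂ ≃+* ℂ) → ℂˣ))) :=
        mapInv (QuotientGroup.mk' (sat ⊥)) C
      have hB : ∀ (F : Type) [Field F] [NumberField F],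
          (∀ σ : ℂ ≃+* ℂ, (eInv (M.dat0 hM) (M.dat0 hM) M.r σ).val F F (fun _ => 1) = 1) →
          B.val F F (fun _ => 1) = 1 := by
        intro F _ _ hF
        have h1 : C.val F F (fun _ => 1) = 1 := funext fun σ => hF σ
        change QuotientGroup.mk' (sat ⊥) (C.val F F (fun _ => 1)) = 1
        rw [h1, map_one]
      have h2 := triv_one (A := B) (tf_sat ⊥) (fun F _ _ hF => hB F (fun σ => hC' σ F hF))
        (hB ℚ hQ') K
      obtain ⟨n, hn, h3⟩ := (QuotientGroup.eq_one_iff (N := sat ⊥) _).mp h2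
      rw [Subgroup.mem_bot] at h3
      have h4 : ∀ σ : ℂ ≃+* ℂ, σ (quo M K l ^ (2 * n)) = quo M K l ^ (2 * n) := by
        intro σ
        have h5 := (pow_iff hM hl σ n).mp (congrFun h3 σ)
        have h6 : ((sg K σ : ℤ) : ℂ) ^ (2 * (M.r * n)) = 1 := by
          rw [pow_mul, pow_two, sg_sq, one_pow]
        calc σ (quo M K l ^ (2 * n)) = (σ (quo M K l) ^ n) ^ 2 * ((sg K σ : ℤ) : ℂ) ^ (2 * (M.r * n))
            := by rw [h6, map_pow, mul_one, ← pow_mul, mul_comm]
          _ = ((σ (quo M K l) * ((sg K σ : ℤ) : ℂ) ^ M.r) ^ n) ^ 2 := by ring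
          _ = quo M K l ^ (2 * n) := by rw [h5, ← pow_mul, mul_comm]
      obtain ⟨q, hq⟩ := Pool.Agent.R693.SU.AUTown.piece _ h4
      have hd : (discr K : ℚ) ≠ 0 := by exact_mod_cast discr_ne_zero K
      refine ⟨2 * n, l, _, q / (discr K : ℚ) ^ (M.r * n), by omega, hl, ⟨δ, hδ, rfl⟩, ?_⟩
      rw [quo, div_pow, eq_div_iff (pow_ne_zero _ (per_ne M K))] at hq
      rw [← hq, mul_pow _ (δ ^ M.r)]
      have h7 : (δ ^ M.r) ^ (2 * n) = (discr K : ℂ) ^ (M.r * n) := by
        rw [← hδ]
        ring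
      rw [h7]
      push_cast
      have hd' : ((discr K : ℤ) : ℂ) ^ (M.r * n) ≠ 0 :=
        pow_ne_zero _ (by exact_mod_cast discr_ne_zero K)
      field_simp

end Pool.Agent.Results.MP_b696eb_nt.TotallyRealFields
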